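import Pool.Agent.Y520.AS.Stm

set_option autoImplicit false

/-! AS-CONV: local `C²` convergence with advection. -/

open MeasureTheory Set Filter Topology Laplacian InnerProductSpace

namespace Pool.Agent.Y465.AS

open Pool.Agent.H947R3 Pool.Agent.Y520.AR Pool.Agent.Y520.AS

lemma fd_eq {n : ℕ} (v : E n → ℝ) (x w : E n) : fderiv ℝ v x w = ∑ i, pd v i x * w i := by
  conv_lhs => rw [clm_eq_sum (fderiv ℝ v x)]
  simp [pd]

/-- Local `C²` convergence of a monotone bounded sequence of solutions, with advection. -/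
theorem t_CONV (hG : S_GRAD) (hH : S_HESS) : S_CONV := by
  intro n f d Ω c B ls m0 l u U hf hc hls hm0 hA hl0 hl1 hlt heq hm hmono hlim x0 hx0
  have hΩ := (hA 0).opn
  obtain ⟨ρ, hρ, hQ6⟩ := exists_QQ_subset hΩ hx0
  obtain ⟨K1, hK1, hG1'⟩ := hG n B (6 * ρ) hc.nonneg (by linarith)
  obtain ⟨K3, hK3, hG3'⟩ := hG n B (3 * ρ) hc.nonneg (by linarith)
  obtain ⟨K4, hK4, hH4'⟩ := hH n B (3 * ρ / 4) hc.nonneg (by linarith)
  have hfm := hf.mono
  -- lower bound
  obtain ⟨α, hα, hαu⟩ : ∃ α : ℝ, 0 < α ∧ ∀ k, ∀ x ∈ QQ x0 (6 * ρ), α ≤ u k x := by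
    obtain ⟨y, hy, hmin⟩ := (isCompact_QQ x0 (6 * ρ)).exists_isMinOn
      ⟨x0, mem_QQ_self x0 (by linarith)⟩ ((hA 0).contOn.mono hQ6)
    refine ⟨u 0 y, (hA 0).pos y (hQ6 hy), fun k x hx => ?_⟩
    exact (show u 0 y ≤ u 0 x from hmin hx).trans (hmono x (hQ6 hx) (Nat.zero_le k))
  have hαm : α ≤ m0 := (hαu 0 x0 (mem_QQ_self x0 (by linarith))).trans (hm 0 x0 hx0)
  have hIcc : ∀ t ∈ Icc α m0, t ∈ Ioo (0 : ℝ) 1 := fun t ht =>
    ⟨hα.trans_le ht.1, ht.2.trans_lt hm0.2⟩
  have huI : ∀ k, ∀ x ∈ QQ x0 (6 * ρ), u k x ∈ Icc α m0 := fun k x hx =>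
    ⟨hαu k x hx, hm k x (hQ6 hx)⟩
  set F : ℝ := f m0 with hF
  set D : ℝ := d m0 with hD
  have hF0 : 0 ≤ F := by linarith [hf.one m0 hm0]
  have hD0 : 0 ≤ D := hf.dnn m0 hm0
  have hfF : ∀ t ∈ Icc α m0, |f t| ≤ F := by
    intro t ht
    rw [abs_of_nonneg (by linarith [hf.one t (hIcc t ht)])]
    exact hfm (hIcc t ht) hm0 ht.2
  have hdD : ∀ t ∈ Icc α m0, |d t| ≤ D := by
    intro t ht
    rw [abs_of_nonneg (hf.dnn t (hIcc t ht))]
    exact hf.dmono (hIcc t ht) hm0 ht.2
  have hfL : ∀ a ∈ Icc α m0, ∀ b ∈ Icc α m0, |f a - f b| ≤ D * |a - b| := by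
    intro a ha b hb
    wlog hab : a ≤ b generalizing a b with H
    · have := H b hb a ha (by linarith)
      rwa [abs_sub_comm, abs_sub_comm a b]
    have h1 := hf.conv b (hIcc b hb) a (hIcc a ha)
    have h2 := hfm (hIcc a ha) (hIcc b hb) hab
    have h3 : d b ≤ D := hf.dmono (hIcc b hb) hm0 hb.2
    rw [abs_of_nonpos (by linarith), abs_of_nonpos (by linarith)]
    nlinarith
  have hQ3 : QQ x0 (3 * ρ) ⊆ QQ x0 (6 * ρ) := QQ_mono (by linarith)
  have hQ3Ω : QQ x0 (3 * ρ) ⊆ Ω := hQ3.trans hQ6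
  -- Step 1 : gradient bound
  set G1 : ℝ := K1 * (1 + ls * F) with hG1
  have hG10 : 0 ≤ G1 := by positivity
  have step1 : ∀ k, ∀ x ∈ QQ x0 (3 * ρ), ∀ i, |pd (u k) i x| ≤ G1 := by
    intro k x hx i
    refine hG1' Ω (u k) c x0 1 (ls * F) hΩ (hA k).c2 hQ6 (fun y hy => hc.bd y (hQ6 hy)) ?_ ?_ x
      (by rwa [show 6 * ρ / 2 = 3 * ρ by ring]) i
    · intro y hy
      have h1 := huI k y hy
      rw [abs_of_nonneg (by linarith [h1.1])]
      linarith [h1.2, hm0.2]
    · intro y hy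
      rw [heq k y (hQ6 hy), abs_mul, abs_of_pos (hl0 k)]
      exact mul_le_mul (hl1 k) (hfF _ (huI k y hy)) (abs_nonneg _) hls.le
  -- Step 2 : uniform convergence
  have hLip : ∀ k, ∀ x ∈ QQ x0 (3 * ρ), ∀ y ∈ QQ x0 (3 * ρ),
      ‖u k y - u k x‖ ≤ ((n + 1) * G1) * ‖y - x‖ := by
    intro k x hx y hy
    apply Convex.norm_image_sub_le_of_norm_fderiv_le (𝕜 := ℝ) _ _ (convex_QQ x0 (3 * ρ)) hx hy
    · intro z hz
      exact ((hA k).c2.contDiffAt (hΩ.mem_nhds (hQ3Ω hz))).differentiableAt (by norm_num)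
    · intro z hz
      exact norm_fderiv_le_of_pd hG10 (fun i => step1 k z hz i)
  have hUc : ContinuousOn U (QQ x0 (3 * ρ)) := by
    have h1 : LipschitzOnWith ⟨(n + 1) * G1, by positivity⟩ U (QQ x0 (3 * ρ)) := by
      apply LipschitzOnWith.of_dist_le_mul
      intro y hy x hx
      rw [dist_eq_norm, dist_eq_norm]
      have h2 : Tendsto (fun k => ‖u k y - u k x‖) atTop (𝓝 ‖U y - U x‖) :=
        ((hlim y (hQ3Ω hy)).sub (hlim x (hQ3Ω hx))).norm
      exact le_of_tendsto h2 (Eventually.of_forall fun k => hLip k x hx y hy)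
    exact h1.continuousOn
  have hunif : TendstoUniformlyOn u U atTop (QQ x0 (3 * ρ)) :=
    Monotone.tendstoUniformlyOn_of_forall_tendsto (isCompact_QQ x0 (3 * ρ))
      (fun k => (hA k).contOn.mono hQ3Ω) (fun x hx => hmono x (hQ3Ω hx)) hUc
      (fun x hx => hlim x (hQ3Ω hx))
  have hcau := Metric.uniformCauchySeqOn_iff.1 hunif.uniformCauchySeqOn
  have hlcau : ∀ ε > 0, ∃ N : ℕ, ∀ p ≥ N, ∀ q ≥ N, |l p - l q| < ε := by
    intro ε hε
    obtain ⟨N, hN⟩ := Metric.cauchySeq_iff.1 hlt.cauchySeq ε hε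
    exact ⟨N, fun p hp q hq => by simpa [Real.dist_eq] using hN p hp q hq⟩
  have hpdsub : ∀ p q i, ∀ x ∈ Ω, pd (fun y => u p y - u q y) i x = pd (u p) i x - pd (u q) i x := by
    intro p q i x hx
    have h1 : DifferentiableAt ℝ (u p) x :=
      ((hA p).c2.contDiffAt (hΩ.mem_nhds hx)).differentiableAt (by norm_num)
    have h2 : DifferentiableAt ℝ (u q) x :=
      ((hA q).c2.contDiffAt (hΩ.mem_nhds hx)).differentiableAt (by norm_num)
    unfold pd
    rw [fderiv_fun_sub h1 h2]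
    rfl
  have heqsub : ∀ p q, ∀ x ∈ Ω, -(Δ (fun y => u p y - u q y) x) +
      fderiv ℝ (fun y => u p y - u q y) x (c x) = l p * f (u p x) - l q * f (u q x) := by
    intro p q x hx
    have h1 := (hA p).c2.contDiffAt (hΩ.mem_nhds hx)
    have h2 := (hA q).c2.contDiffAt (hΩ.mem_nhds hx)
    have h3 : Δ (fun y => u p y - u q y) x = Δ (u p) x - Δ (u q) x := h1.laplacian_sub h2
    have h4 : fderiv ℝ (fun y => u p y - u q y) x (c x) =
        fderiv ℝ (u p) x (c x) - fderiv ℝ (u q) x (c x) := by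
      rw [fderiv_fun_sub (h1.differentiableAt (by norm_num)) (h2.differentiableAt (by norm_num))]
      rfl
    rw [h3, h4, ← heq p x hx, ← heq q x hx]
    ring
  -- Step 3
  have step3 : ∀ ε > 0, ∃ N : ℕ, ∀ p ≥ N, ∀ q ≥ N, ∀ x ∈ QQ x0 (3 * ρ / 2), ∀ i,
      |pd (u p) i x - pd (u q) i x| ≤ ε := by
    intro ε hε
    set A : ℝ := K3 * (1 + (F + ls * D)) + 1 with hA'
    have hApos : 0 < A := by positivity
    set δ : ℝ := ε / A with hδ
    have hδ0 : 0 < δ := by positivity
    obtain ⟨N1, hN1⟩ := hcau δ hδ0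
    obtain ⟨N2, hN2⟩ := hlcau δ hδ0
    refine ⟨max N1 N2, ?_⟩
    intro p hp q hq x hx i
    have hxΩ : x ∈ Ω := hQ3Ω (QQ_mono (by linarith) hx)
    have key := hG3' Ω (fun y => u p y - u q y) c x0 δ ((F + ls * D) * δ) hΩ
      ((hA p).c2.sub (hA q).c2) hQ3Ω (fun y hy => hc.bd y (hQ3Ω hy))
      (by
        intro y hy
        have h1 := hN1 p (le_of_max_le_left hp) q (le_of_max_le_left hq) y hy
        rw [Real.dist_eq] at h1
        exact h1.le)
      (by
        intro y hy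
        have hy6 : y ∈ QQ x0 (6 * ρ) := hQ3 hy
        have h1 := hN1 p (le_of_max_le_left hp) q (le_of_max_le_left hq) y hy
        rw [Real.dist_eq] at h1
        have h2 := hN2 p (le_of_max_le_right hp) q (le_of_max_le_right hq)
        have h3 := heqsub p q y (hQ3Ω hy)
        have h4 := hfF _ (huI p y hy6)
        have h5 := hfL _ (huI p y hy6) _ (huI q y hy6)
        have h6 : l p * f (u p y) - l q * f (u q y) =
            (l p - l q) * f (u p y) + l q * (f (u p y) - f (u q y)) := by ring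
        rw [h3, h6]
        calc |(l p - l q) * f (u p y) + l q * (f (u p y) - f (u q y))|
            ≤ |(l p - l q) * f (u p y)| + |l q * (f (u p y) - f (u q y))| := abs_add_le _ _
          _ = |l p - l q| * |f (u p y)| + l q * |f (u p y) - f (u q y)| := by
              rw [abs_mul, abs_mul, abs_of_pos (hl0 q)]
          _ ≤ δ * F + ls * (D * δ) := by
              apply add_le_add
              · exact mul_le_mul h2.le h4 (abs_nonneg _) hδ0.le
              · apply mul_le_mul (hl1 q) _ (abs_nonneg _) hls.le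
                exact h5.trans (mul_le_mul_of_nonneg_left h1.le hD0)
          _ = (F + ls * D) * δ := by ring) x hx i
    rw [hpdsub p q i x hxΩ] at key
    refine key.trans ?_
    have h7 : K3 * (δ + (F + ls * D) * δ) = (A - 1) * δ := by
      rw [hA']; ring
    rw [h7]
    have h8 : A * δ = ε := by rw [hδ]; field_simp
    nlinarith
  have hQ2 : QQ x0 (3 * ρ / 2) ⊆ QQ x0 (3 * ρ) := QQ_mono (by linarith)
  have hQ2Ω : QQ x0 (3 * ρ / 2) ⊆ Ω := hQ2.trans hQ3Ω
  -- derivative of the right hand side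
  have hfc1 : ContDiffOn ℝ 1 f (Ioo 0 1) := by
    have h1 : ∀ t ∈ Ioo (0 : ℝ) 1, deriv f t = d t := fun t ht => (hf.hd t ht).deriv
    rw [show (1 : WithTop ℕ∞) = 0 + 1 from rfl, contDiffOn_succ_iff_deriv_of_isOpen isOpen_Ioo]
    refine ⟨fun t ht => (hf.hd t ht).differentiableAt.differentiableWithinAt, by simp, ?_⟩
    exact contDiffOn_zero.2 (hf.dcont.congr h1)
  have hfu : ∀ k, ContDiffOn ℝ 1 (fun x => f (u k x)) Ω := fun k =>
    hfc1.comp ((hA k).c2.of_le (by norm_num)) (fun x hx => ⟨(hA k).pos x hx, (hA k).lt x hx⟩)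
  have hGc1 : ∀ p q, ContDiffOn ℝ 1 (fun x => l p * f (u p x) - l q * f (u q x)) Ω := by
    intro p q
    exact (contDiffOn_const.mul (hfu p)).sub (contDiffOn_const.mul (hfu q))
  have hpdG : ∀ p q j, ∀ x ∈ Ω, pd (fun x => l p * f (u p x) - l q * f (u q x)) j x =
      l p * (d (u p x) * pd (u p) j x) - l q * (d (u q x) * pd (u q) j x) := by
    intro p q j x hx
    have h2 : ∀ k, HasFDerivAt (fun x => f (u k x)) (d (u k x) • fderiv ℝ (u k) x) x := by
      intro k
      have h3 : DifferentiableAt ℝ (u k) x :=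
        ((hA k).c2.contDiffAt (hΩ.mem_nhds hx)).differentiableAt (by norm_num)
      exact (hf.hd _ ⟨(hA k).pos x hx, (hA k).lt x hx⟩).comp_hasFDerivAt x h3.hasFDerivAt
    have h4 := ((h2 p).const_mul (l p)).sub ((h2 q).const_mul (l q))
    unfold pd
    have h5 : fderiv ℝ (fun x => l p * f (u p x) - l q * f (u q x)) x = _ := h4.fderiv
    rw [h5]
    simp
  -- uniform continuity of `d`
  have hdu : ∀ ε > 0, ∃ δ > 0, ∀ a ∈ Icc α m0, ∀ b ∈ Icc α m0, |a - b| < δ → |d a - d b| < ε := by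
    intro ε hε
    have h1 : UniformContinuousOn d (Icc α m0) :=
      isCompact_Icc.uniformContinuousOn_of_continuous (hf.dcont.mono hIcc)
    obtain ⟨δ, hδ, h2⟩ := Metric.uniformContinuousOn_iff.1 h1 ε hε
    exact ⟨δ, hδ, fun a ha b hb hab => by
      simpa [Real.dist_eq] using h2 a ha b hb (by simpa [Real.dist_eq] using hab)⟩
  -- Step 4
  have step4 : ∀ ε > 0, ∃ N : ℕ, ∀ p ≥ N, ∀ q ≥ N, ∀ x ∈ QQ x0 (3 * ρ / 8), ∀ i j,
      |pd (pd (u p) i) j x - pd (pd (u q) i) j x| ≤ ε := by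
    intro ε hε
    set A : ℝ := K4 * (1 + (D * G1 + ls * G1 + ls * D)) + 1 with hA'
    have hApos : 0 < A := by positivity
    set δ : ℝ := ε / A with hδ
    have hδ0 : 0 < δ := by positivity
    obtain ⟨δ', hδ', hdδ⟩ := hdu δ hδ0
    obtain ⟨N1, hN1⟩ := hcau δ' hδ'
    obtain ⟨N2, hN2⟩ := hlcau δ hδ0
    obtain ⟨N3, hN3⟩ := step3 δ hδ0
    refine ⟨max N1 (max N2 N3), ?_⟩
    intro p hp q hq x hx i j
    have hp1 : N1 ≤ p := le_of_max_le_left hp
    have hp2 : N2 ≤ p := le_of_max_le_left (le_of_max_le_right hp)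
    have hp3 : N3 ≤ p := le_of_max_le_right (le_of_max_le_right hp)
    have hq1 : N1 ≤ q := le_of_max_le_left hq
    have hq2 : N2 ≤ q := le_of_max_le_left (le_of_max_le_right hq)
    have hq3 : N3 ≤ q := le_of_max_le_right (le_of_max_le_right hq)
    have hRR : 2 * (3 * ρ / 4) = 3 * ρ / 2 := by ring
    have hxΩ : x ∈ Ω := hQ2Ω (QQ_mono (by linarith) hx)
    have key := hH4' Ω (fun y => u p y - u q y) (fun x => l p * f (u p x) - l q * f (u q x)) c x0
      δ ((D * G1 + ls * G1 + ls * D) * δ) hΩ ((hA p).c2.sub (hA q).c2) hc.c1 (hGc1 p q)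
      (by rw [hRR]; exact hQ2Ω)
      (by
        rw [hRR]
        exact fun y hy => ⟨hc.bd y (hQ2Ω hy), hc.bd' y (hQ2Ω hy)⟩)
      (fun y hy => heqsub p q y hy)
      (by
        rw [hRR]
        intro y hy k
        rw [hpdsub p q k y (hQ2Ω hy)]
        exact hN3 p hp3 q hq3 y hy k)
      (by
        rw [hRR]
        intro y hy j
        have hy5 : y ∈ QQ x0 (3 * ρ) := hQ2 hy
        have hy6 : y ∈ QQ x0 (6 * ρ) := hQ3 hy5
        have h1 := hN1 p hp1 q hq1 y hy5
        rw [Real.dist_eq] at h1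
        have h2 := hN2 p hp2 q hq2
        have h3 := hN3 p hp3 q hq3 y hy j
        have h4 := hdδ _ (huI p y hy6) _ (huI q y hy6) h1
        have h5 := hdD _ (huI p y hy6)
        have h5' := hdD _ (huI q y hy6)
        have h6 := step1 p y hy5 j
        rw [hpdG p q j y (hQ2Ω hy)]
        have h7 : l p * (d (u p y) * pd (u p) j y) - l q * (d (u q y) * pd (u q) j y) =
            (l p - l q) * (d (u p y) * pd (u p) j y) + l q * ((d (u p y) - d (u q y)) * pd (u p) j y)
              + l q * (d (u q y) * (pd (u p) j y - pd (u q) j y)) := by ring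
        rw [h7]
        calc |(l p - l q) * (d (u p y) * pd (u p) j y) + l q * ((d (u p y) - d (u q y)) * pd (u p) j y)
              + l q * (d (u q y) * (pd (u p) j y - pd (u q) j y))|
            ≤ |(l p - l q) * (d (u p y) * pd (u p) j y)| +
              |l q * ((d (u p y) - d (u q y)) * pd (u p) j y)| +
              |l q * (d (u q y) * (pd (u p) j y - pd (u q) j y))| := abs_add_three _ _ _
          _ = |l p - l q| * (|d (u p y)| * |pd (u p) j y|) +
              l q * (|d (u p y) - d (u q y)| * |pd (u p) j y|) +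
              l q * (|d (u q y)| * |pd (u p) j y - pd (u q) j y|) := by
              simp only [abs_mul, abs_of_pos (hl0 q)]
          _ ≤ δ * (D * G1) + ls * (δ * G1) + ls * (D * δ) := by
              apply add_le_add
              · apply add_le_add
                · exact mul_le_mul h2.le (mul_le_mul h5 h6 (abs_nonneg _) hD0) (by positivity) hδ0.le
                · exact mul_le_mul (hl1 q) (mul_le_mul h4.le h6 (abs_nonneg _) hδ0.le)
                    (by positivity) hls.le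
              · exact mul_le_mul (hl1 q) (mul_le_mul h5' h3 (abs_nonneg _) hD0)
                  (by positivity) hls.le
          _ = (D * G1 + ls * G1 + ls * D) * δ := by ring)
      x (by rwa [show 3 * ρ / 4 / 2 = 3 * ρ / 8 by ring]) i j
    have h9 : pd (pd (fun y => u p y - u q y) i) j x = pd (pd (u p) i) j x - pd (pd (u q) i) j x := by
      have e1 : pd (fun y => u p y - u q y) i =ᶠ[𝓝 x] fun y => pd (u p) i y - pd (u q) i y := by
        filter_upwards [hΩ.mem_nhds hxΩ] with y hy using hpdsub p q i y hy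
      have e2 : ∀ k, DifferentiableAt ℝ (pd (u k) i) x := fun k =>
        ((contDiffOn_one_pd hΩ (hA k).c2 i).contDiffAt (hΩ.mem_nhds hxΩ)).differentiableAt
          (by norm_num)
      show fderiv ℝ (pd (fun y => u p y - u q y) i) x (bv j) =
        fderiv ℝ (pd (u p) i) x (bv j) - fderiv ℝ (pd (u q) i) x (bv j)
      rw [e1.fderiv_eq, fderiv_fun_sub (e2 p) (e2 q)]
      rfl
    rw [h9] at key
    refine key.trans ?_
    have h7 : K4 * (δ + (D * G1 + ls * G1 + ls * D) * δ) = (A - 1) * δ := by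
      rw [hA']; ring
    rw [h7]
    have h8 : A * δ = ε := by rw [hδ]; field_simp
    nlinarith
  -- conclusion
  have hballQ : Metric.ball x0 (3 * ρ / 8) ⊆ QQ x0 (3 * ρ / 8) := ball_subset_QQ x0 _
  have hballQ2 : Metric.ball x0 (3 * ρ / 8) ⊆ QQ x0 (3 * ρ / 2) :=
    hballQ.trans (QQ_mono (by linarith))
  have hballΩ : Metric.ball x0 (3 * ρ / 8) ⊆ Ω := hballQ2.trans hQ2Ω
  have hcc : ∀ i, UniformCauchySeqOn (fun k => pd (u k) i) atTop (Metric.ball x0 (3 * ρ / 8)) := by
    intro i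
    rw [Metric.uniformCauchySeqOn_iff]
    intro ε hε
    obtain ⟨N, hN⟩ := step3 (ε / 2) (by linarith)
    refine ⟨N, fun p hp q hq x hx => ?_⟩
    have := hN p hp q hq x (hballQ2 hx) i
    rw [Real.dist_eq]
    linarith
  have hres := c2_limit (s := Metric.ball x0 (3 * ρ / 8)) Metric.isOpen_ball (v := u) (V := U)
    (fun k => (hA k).c2.mono hballΩ) (fun x hx => hlim x (hballΩ hx)) hcc
    (by
      intro i j
      rw [Metric.uniformCauchySeqOn_iff]
      intro ε hε
      obtain ⟨N, hN⟩ := step4 (ε / 2) (by linarith)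
      refine ⟨N, fun p hp q hq x hx => ?_⟩
      have := hN p hp q hq x (hballQ hx) i j
      rw [Real.dist_eq]
      linarith)
  have hres1 := c1_limit (s := Metric.ball x0 (3 * ρ / 8)) Metric.isOpen_ball (v := u) (V := U)
    (fun k => ((hA k).c2.mono hballΩ).of_le (by norm_num)) (fun x hx => hlim x (hballΩ hx)) hcc
  refine ⟨Metric.ball x0 (3 * ρ / 8), Metric.isOpen_ball, Metric.mem_ball_self (by linarith),
    hballΩ, hres.1, hres.2, ?_⟩
  intro x hx
  simp only [fd_eq]
  exact tendsto_finsetSum _ fun i _ => (hres1.2 i x hx).mul_const _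

end Pool.Agent.Y465.AS
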